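import Mathlib

set_option autoImplicit false

open Finset

namespace Pool.Agent.Results.MP_a76361_lc.PortfolioSize

/-- `f` is a symmetric monotonic norm on `ℝ^d`. -/
structure IsSymMonoNorm {d : ℕ} (f : (Fin d → ℝ) → ℝ) : Prop where
  /-- only the zero vector has norm zero -/
  eq_zero : ∀ x, f x = 0 → x = 0
  /-- absolute homogeneity -/
  smul : ∀ (a : ℝ) (x : Fin d → ℝ), f (a • x) = |a| * f x
  /-- triangle inequality -/
  add_le : ∀ x y, f (x + y) ≤ f x + f y
  /-- invariance under permutations of the coordinates -/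
  perm : ∀ (σ : Equiv.Perm (Fin d)) (x : Fin d → ℝ), f (x ∘ σ) = f x
  /-- monotonicity on the nonnegative orthant -/
  mono : ∀ x y, 0 ≤ x → x ≤ y → f x ≤ f y

/-- The covering polyhedron `{x ≥ 0 : A x ≥ b}`. -/
def coveringPolyhedron {d r : ℕ} (A : Matrix (Fin r) (Fin d) ℝ) (b : Fin r → ℝ) :
    Set (Fin d → ℝ) :=
  {x | 0 ≤ x ∧ ∀ i, b i ≤ ∑ j, A i j * x j}

/-- `X` is an `α`-approximate portfolio for `P`: it is a finite subset of `P`, and for every
symmetric monotonic norm `f` some member `x` of `X` has `f x ≤ α * inf_{y ∈ P} f y`. -/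
def IsPortfolio {d : ℕ} (α : ℝ) (P : Set (Fin d → ℝ)) (X : Finset (Fin d → ℝ)) : Prop :=
  (∀ x ∈ X, x ∈ P) ∧ ∀ f : (Fin d → ℝ) → ℝ, IsSymMonoNorm f →
    ∃ x ∈ X, f x ≤ α * sInf (f '' P)

namespace IsSymMonoNorm

variable {d : ℕ} {f : (Fin d → ℝ) → ℝ} (hf : IsSymMonoNorm f)
include hf

lemma zero : f 0 = 0 := by
  have := hf.smul 0 0
  simpa using this

lemma nonneg (x : Fin d → ℝ) : 0 ≤ f x := by
  have h1 := hf.add_le x ((-1 : ℝ) • x)
  have h2 := hf.smul (-1) x
  have h3 : x + (-1 : ℝ) • x = 0 := by simp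
  rw [h3, hf.zero, h2] at h1
  simp at h1
  linarith

lemma sum_le {ι : Type*} (s : Finset ι) (g : ι → Fin d → ℝ) :
    f (∑ i ∈ s, g i) ≤ ∑ i ∈ s, f (g i) := by
  classical
  induction s using Finset.induction_on with
  | empty => simp [hf.zero]
  | insert a s ha ih =>
    rw [Finset.sum_insert ha, Finset.sum_insert ha]
    exact (hf.add_le _ _).trans (by linarith)

lemma single_eq (i j : Fin d) : f (Pi.single i 1) = f (Pi.single j 1) := by
  have h := hf.perm (Equiv.swap i j) (Pi.single i 1)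
  rw [← h]
  congr 1
  funext k
  simp only [Function.comp_apply, Pi.single_apply]
  by_cases hk : k = j
  · subst hk; simp
  · rw [if_neg hk, if_neg]
    intro h'
    apply hk
    have h2 := congrArg (Equiv.swap i j) h'
    rw [Equiv.swap_apply_self, Equiv.swap_apply_left] at h2
    exact h2

lemma single_mul (i j : Fin d) (a : ℝ) (ha : 0 ≤ a) :
    f (Pi.single i a) = a * f (Pi.single j 1) := by
  have h1 : (Pi.single i a : Fin d → ℝ) = a • Pi.single i 1 := by
    funext k
    simp [Pi.single_apply]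
  rw [h1, hf.smul, abs_of_nonneg ha, hf.single_eq i j]

lemma le_of_bounded (j : Fin d) {z : Fin d → ℝ} (hz : 0 ≤ z) {ε : ℝ} (h : ∀ i, z i ≤ ε) :
    f z ≤ d * ε * f (Pi.single j 1) := by
  have h1 : z = ∑ i, Pi.single i (z i) := (Finset.univ_sum_single z).symm
  calc f z = f (∑ i, Pi.single i (z i)) := by rw [← h1]
    _ ≤ ∑ i, f (Pi.single i (z i)) := hf.sum_le _ _
    _ = ∑ i, z i * f (Pi.single j 1) := Finset.sum_congr rfl fun i _ => hf.single_mul i j _ (hz i)
    _ ≤ ∑ _i : Fin d, ε * f (Pi.single j 1) :=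
        Finset.sum_le_sum fun i _ => mul_le_mul_of_nonneg_right (h i) (hf.nonneg _)
    _ = d * ε * f (Pi.single j 1) := by simp [mul_assoc]

lemma single_le (i j : Fin d) {y : Fin d → ℝ} (hy : 0 ≤ y) :
    y i * f (Pi.single j 1) ≤ f y := by
  rw [← hf.single_mul i j (y i) (hy i)]
  apply hf.mono
  · intro k
    rw [Pi.single_apply]
    split_ifs
    · exact hy i
    · exact le_rfl
  · intro k
    rw [Pi.single_apply]
    split_ifs with h
    · rw [h]
    · exact hy k

/-- Domination: if the decreasing rearrangements satisfy `x k ≤ B * y (k / B)` up to small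
entries then `f x ≤ (B ^ 2 + 1) f y`. -/
lemma dom_sorted {B : ℕ} (hB : 1 ≤ B) {x y : Fin d → ℝ} (hx : 0 ≤ x) (hy : 0 ≤ y) {ε : ℝ}
    (h : ∀ k : Fin d, x k ≤ ε ∨ x k ≤ B * y ⟨k / B, lt_of_le_of_lt (Nat.div_le_self _ _) k.2⟩)
    (i : Fin d) (hi : d * ε ≤ y i) : f x ≤ ((B : ℝ) ^ 2 + 1) * f y := by
  classical
  let z : ℕ → Fin d → ℝ := fun m k => if (k : ℕ) % B = m ∧ ¬ (x k ≤ ε) then x k else 0
  let s : Fin d → ℝ := fun k => if x k ≤ ε then x k else 0
  have hdecomp : x = ∑ m ∈ Finset.range B, z m + s := by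
    funext k
    simp only [Pi.add_apply, Finset.sum_apply, z, s]
    by_cases hk : x k ≤ ε
    · simp [hk]
    · simp only [hk, not_false_eq_true, and_true, if_false, add_zero]
      rw [Finset.sum_ite_eq, if_pos (Finset.mem_range.2 (Nat.mod_lt _ hB))]
  have hzm : ∀ m, f (z m) ≤ B * f y := by
    intro m
    have hinj : Function.Injective (fun k : {k : Fin d // (k : ℕ) % B = m} =>
        (⟨(k.1 : ℕ) / B, lt_of_le_of_lt (Nat.div_le_self _ _) k.1.2⟩ : Fin d)) := by
      rintro ⟨k, hk⟩ ⟨k', hk'⟩ heq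
      have h1 : (k : ℕ) / B = (k' : ℕ) / B := congrArg Fin.val heq
      have h2 := Nat.div_add_mod (k : ℕ) B
      have h3 := Nat.div_add_mod (k' : ℕ) B
      apply Subtype.ext
      apply Fin.ext
      show (k : ℕ) = k'
      rw [← h2, ← h3, h1, hk, hk']
    obtain ⟨σ, hσ⟩ := Equiv.Perm.exists_extending_pair
      (fun k : {k : Fin d // (k : ℕ) % B = m} => k.1) _ Subtype.val_injective hinj
    have hle : z m ≤ (B : ℝ) • (y ∘ σ) := by
      intro k
      simp only [z, Pi.smul_apply, Function.comp_apply, smul_eq_mul]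
      split_ifs with hk
      · obtain ⟨hk1, hk2⟩ := hk
        have h1 := (h k).resolve_left hk2
        have h2 := hσ ⟨k, hk1⟩
        simp only at h2
        rw [h2]
        exact h1
      · exact mul_nonneg (Nat.cast_nonneg _) (hy _)
    have h0 : 0 ≤ z m := by
      intro k
      simp only [z]
      split_ifs
      · exact hx k
      · exact le_rfl
    calc f (z m) ≤ f ((B : ℝ) • (y ∘ σ)) := hf.mono _ _ h0 hle
      _ = B * f y := by rw [hf.smul, hf.perm, abs_of_nonneg (Nat.cast_nonneg _)]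
  have hs : f s ≤ f y := by
    have h0 : 0 ≤ s := by
      intro k
      simp only [s]
      split_ifs
      · exact hx k
      · exact le_rfl
    by_cases hε : 0 ≤ ε
    · have h1 : ∀ k, s k ≤ ε := by
        intro k
        simp only [s]
        split_ifs with hk
        · exact hk
        · exact hε
      calc f s ≤ d * ε * f (Pi.single i 1) := hf.le_of_bounded i h0 h1
        _ ≤ y i * f (Pi.single i 1) := mul_le_mul_of_nonneg_right hi (hf.nonneg _)
        _ ≤ f y := hf.single_le i i hy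
    · have : s = 0 := by
        funext k
        simp only [s, Pi.zero_apply]
        rw [if_neg]
        intro h'
        have := hx k
        simp only [Pi.zero_apply] at this
        linarith
      rw [this, hf.zero]
      exact hf.nonneg y
  calc f x = f (∑ m ∈ Finset.range B, z m + s) := by rw [← hdecomp]
    _ ≤ f (∑ m ∈ Finset.range B, z m) + f s := hf.add_le _ _
    _ ≤ ∑ m ∈ Finset.range B, f (z m) + f s := by
        have := hf.sum_le (Finset.range B) z
        linarith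
    _ ≤ ∑ _m ∈ Finset.range B, B * f y + f y := by
        have := Finset.sum_le_sum fun m (_ : m ∈ Finset.range B) => hzm m
        linarith
    _ = ((B : ℝ) ^ 2 + 1) * f y := by
        simp only [Finset.sum_const, Finset.card_range, nsmul_eq_mul]
        ring

end IsSymMonoNorm

/-- the number of coordinates of `x` which are at least `t` -/
noncomputable def cnt {d : ℕ} (t : ℝ) (x : Fin d → ℝ) : ℕ := by
  classical exact (Finset.univ.filter fun i => t ≤ x i).card

lemma cnt_comp {d : ℕ} (t : ℝ) (x : Fin d → ℝ) (σ : Equiv.Perm (Fin d)) :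
    cnt t (x ∘ σ) = cnt t x := by
  classical
  unfold cnt
  refine Finset.card_bij (fun i _ => σ i) ?_ ?_ ?_
  · intro i hi
    simpa using hi
  · intro i _ j _ h
    exact σ.injective h
  · intro j hj
    exact ⟨σ.symm j, by simpa using hj, by simp⟩

lemma cnt_le {d : ℕ} (t : ℝ) (x : Fin d → ℝ) : cnt t x ≤ d := by
  classical
  unfold cnt
  calc _ ≤ (Finset.univ : Finset (Fin d)).card := Finset.card_filter_le _ _
    _ = d := by simp

lemma cnt_anti {d : ℕ} {t t' : ℝ} (h : t ≤ t') (x : Fin d → ℝ) : cnt t' x ≤ cnt t x := by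
  classical
  unfold cnt
  apply Finset.card_le_card
  intro i hi
  simp only [Finset.mem_filter, Finset.mem_univ, true_and] at *
  linarith

lemma lt_cnt_of_le {d : ℕ} {t : ℝ} {x : Fin d → ℝ} (hx : Antitone x) {k : Fin d} (h : t ≤ x k) :
    (k : ℕ) < cnt t x := by
  classical
  unfold cnt
  have h1 : Finset.Iic k ⊆ Finset.univ.filter fun i => t ≤ x i := by
    intro i hi
    rw [Finset.mem_Iic] at hi
    simp only [Finset.mem_filter, Finset.mem_univ, true_and]
    exact h.trans (hx hi)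
  have h2 := Finset.card_le_card h1
  rw [Fin.card_Iic] at h2
  omega

lemma le_of_lt_cnt {d : ℕ} {t : ℝ} {x : Fin d → ℝ} (hx : Antitone x) {k : Fin d}
    (h : (k : ℕ) < cnt t x) : t ≤ x k := by
  classical
  by_contra hcon
  push Not at hcon
  have h1 : (Finset.univ.filter fun i => t ≤ x i) ⊆ Finset.Iio k := by
    intro i hi
    simp only [Finset.mem_filter, Finset.mem_univ, true_and] at hi
    rw [Finset.mem_Iio]
    by_contra hik
    have := hx (not_lt.1 hik)
    linarith
  have h2 := Finset.card_le_card h1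
  rw [Fin.card_Iio] at h2
  unfold cnt at h
  omega

/-- the thresholds -/
noncomputable def thr (m : ℝ) (B K j : ℕ) : ℝ := m * (B : ℝ) ^ K / (B : ℝ) ^ j

lemma thr_succ {m : ℝ} {B K j : ℕ} (hB : 2 ≤ B) : thr m B K j = B * thr m B K (j + 1) := by
  have : (B : ℝ) ≠ 0 := by positivity
  unfold thr
  field_simp
  ring

lemma thr_anti {m : ℝ} (hm : 0 ≤ m) {B K : ℕ} (hB : 2 ≤ B) {i j : ℕ} (h : i ≤ j) :
    thr m B K j ≤ thr m B K i := by
  unfold thr
  have : (1 : ℝ) ≤ B := by exact_mod_cast (by omega : 1 ≤ B)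
  apply div_le_div_of_nonneg_left
  · positivity
  · positivity
  · exact pow_le_pow_right₀ this h

/-- the class of a vector -/
noncomputable def code {d : ℕ} (m : ℝ) (B K : ℕ) (x : Fin d → ℝ) : Finset ℕ :=
  (Finset.univ : Finset (Fin (2 * K + 1))).image
    fun j : Fin (2 * K + 1) => Nat.clog B (cnt (thr m B K (j : ℕ)) x + 1) + (j : ℕ)

lemma code_mem {d : ℕ} (m : ℝ) {B K : ℕ} (hB : 2 ≤ B) (hd : 1 ≤ d) (hK : 2 * d ≤ B ^ K)
    (x : Fin d → ℝ) : code m B K x ⊆ Finset.range (3 * K + 1) := by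
  intro n hn
  unfold code at hn
  rw [Finset.mem_image] at hn
  obtain ⟨j, _, rfl⟩ := hn
  rw [Finset.mem_range]
  have h1 : Nat.clog B (cnt (thr m B K j) x + 1) ≤ K := by
    rw [Nat.clog_le_iff_le_pow (by omega)]
    have := cnt_le (thr m B K j) x
    omega
  have := j.2
  omega

lemma code_spec {d : ℕ} {m : ℝ} (hm : 0 ≤ m) {B K : ℕ} (hB : 2 ≤ B)
    {x y : Fin d → ℝ} (h : code m B K x = code m B K y) (j : ℕ) (hj : j < 2 * K + 1) :
    cnt (thr m B K j) x ≤ B * cnt (thr m B K j) y := by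
  have hmono : ∀ z : Fin d → ℝ, StrictMono fun j : Fin (2 * K + 1) =>
      Nat.clog B (cnt (thr m B K j) z + 1) + (j : ℕ) := by
    intro z i j hij
    have h1 : thr m B K j ≤ thr m B K i := thr_anti hm hB (by exact_mod_cast hij.le)
    have h2 := Nat.clog_mono_right B (Nat.add_le_add_right (cnt_anti h1 z) 1)
    have h3 : (i : ℕ) < j := hij
    show Nat.clog B (cnt (thr m B K i) z + 1) + (i : ℕ) <
      Nat.clog B (cnt (thr m B K j) z + 1) + (j : ℕ)
    omega
  have hfun := ((hmono x).range_inj (hmono y)).1 (by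
    have := congrArg (fun s : Finset ℕ => (s : Set ℕ)) h
    unfold code at this
    simpa using this)
  have h1 := congrFun hfun ⟨j, hj⟩
  simp only [Nat.add_right_cancel_iff] at h1
  by_cases h0 : cnt (thr m B K j) x = 0
  · rw [h0]; exact Nat.zero_le _
  · have h2 : cnt (thr m B K j) x + 1 ≤ B ^ Nat.clog B (cnt (thr m B K j) x + 1) :=
      Nat.le_pow_clog (by omega) _
    have h3 : 0 < Nat.clog B (cnt (thr m B K j) y + 1) := by
      rw [← h1]
      exact Nat.clog_pos (by omega) (by omega)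
    have h4 : 1 < cnt (thr m B K j) y + 1 := by
      by_contra hcon
      rw [Nat.clog_of_right_le_one (by omega)] at h3
      exact lt_irrefl _ h3
    have h5 := Nat.pow_pred_clog_lt_self (b := B) (by omega) h4
    rw [h1] at h2
    obtain ⟨c, hc⟩ := Nat.exists_eq_succ_of_ne_zero h3.ne'
    rw [hc] at h2 h5
    simp only [Nat.succ_eq_add_one, Nat.pred_eq_sub_one, Nat.add_sub_cancel] at h5 h2
    rw [pow_succ] at h2
    have h6 : B ^ c ≤ cnt (thr m B K j) y := by omega
    calc cnt (thr m B K j) x ≤ B ^ c * B := by omega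
      _ ≤ cnt (thr m B K j) y * B := Nat.mul_le_mul_right _ h6
      _ = B * cnt (thr m B K j) y := mul_comm _ _

lemma exists_sort {d : ℕ} (x : Fin d → ℝ) : ∃ σ : Equiv.Perm (Fin d), Antitone (x ∘ σ) := by
  refine ⟨Tuple.sort (fun i => - x i), ?_⟩
  intro i j hij
  have := Tuple.monotone_sort (fun i => - x i) hij
  simp only [Function.comp_apply] at *
  linarith

/-- Vectors of the same class dominate each other. -/
lemma dom_code {d : ℕ} {m : ℝ} (hm : 0 < m) {B K : ℕ} (hB : 2 ≤ B)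
    (hK : 2 * d ≤ B ^ K) {x y : Fin d → ℝ} (hx : 0 ≤ x) (hy : 0 ≤ y)
    (hxle : ∀ i, x i ≤ 2 * d * m) (i : Fin d) (hyi : m ≤ y i)
    (h : code m B K x = code m B K y) {f : (Fin d → ℝ) → ℝ} (hf : IsSymMonoNorm f) :
    f x ≤ ((B : ℝ) ^ 2 + 1) * f y := by
  obtain ⟨σ, hσ⟩ := exists_sort x
  obtain ⟨τ, hτ⟩ := exists_sort y
  rw [← hf.perm σ x, ← hf.perm τ y]
  have hKr : 2 * (d : ℝ) ≤ (B : ℝ) ^ K := by exact_mod_cast hK
  have hBK : (0 : ℝ) < (B : ℝ) ^ K := by positivity
  refine hf.dom_sorted (by omega) (fun k => hx (σ k)) (fun k => hy (τ k))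
    (ε := thr m B K (2 * K))
    (fun k => ?_) (τ.symm i) ?_
  · by_cases hk : (x ∘ σ) k ≤ thr m B K (2 * K)
    · exact Or.inl hk
    · right
      push Not at hk
      have hex : ∃ j, thr m B K j ≤ (x ∘ σ) k := ⟨2 * K, hk.le⟩
      classical
      let j := Nat.find hex
      have hj : thr m B K j ≤ (x ∘ σ) k := Nat.find_spec hex
      have hj2 : j ≤ 2 * K := Nat.find_min' hex hk.le
      have h1 := lt_cnt_of_le hσ hj
      rw [cnt_comp] at h1
      have h2 := code_spec hm.le hB h j (by omega)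
      have h3 : (k : ℕ) / B < cnt (thr m B K j) y := by
        rw [Nat.div_lt_iff_lt_mul (by omega)]
        rw [mul_comm]
        omega
      rw [← cnt_comp _ y τ] at h3
      have h4 := le_of_lt_cnt (k := ⟨(k : ℕ) / B, lt_of_le_of_lt (Nat.div_le_self _ _) k.2⟩) hτ h3
      have hBr : (1 : ℝ) ≤ B := by exact_mod_cast (by omega : 1 ≤ B)
      have hy' : 0 ≤ (y ∘ τ) ⟨(k : ℕ) / B, lt_of_le_of_lt (Nat.div_le_self _ _) k.2⟩ := hy _
      rcases Nat.eq_zero_or_pos j with h0 | h0
      · have h5 : (x ∘ σ) k ≤ thr m B K j := by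
          rw [h0]
          unfold thr
          rw [pow_zero, div_one]
          calc (x ∘ σ) k ≤ 2 * d * m := hxle _
            _ = m * (2 * d) := by ring
            _ ≤ m * (B : ℝ) ^ K := mul_le_mul_of_nonneg_left hKr hm.le
        calc (x ∘ σ) k ≤ thr m B K j := h5
          _ ≤ (y ∘ τ) ⟨(k : ℕ) / B, lt_of_le_of_lt (Nat.div_le_self _ _) k.2⟩ := h4
          _ ≤ B * (y ∘ τ) ⟨(k : ℕ) / B, lt_of_le_of_lt (Nat.div_le_self _ _) k.2⟩ :=
            le_mul_of_one_le_left hy' hBr
      · obtain ⟨j', hj'⟩ := Nat.exists_eq_succ_of_ne_zero h0.ne'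
        have h5 : (x ∘ σ) k < thr m B K j' := by
          have := Nat.find_min hex (m := j') (by omega)
          exact not_le.1 this
        rw [thr_succ hB] at h5
        rw [hj', Nat.succ_eq_add_one] at h4
        calc (x ∘ σ) k ≤ B * thr m B K (j' + 1) := h5.le
          _ ≤ _ := mul_le_mul_of_nonneg_left h4 (by positivity)
  · have h1 : (d : ℝ) * thr m B K (2 * K) ≤ m := by
      unfold thr
      rw [two_mul K, pow_add]
      have : m * (B : ℝ) ^ K / ((B : ℝ) ^ K * (B : ℝ) ^ K) = m / (B : ℝ) ^ K := by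
        field_simp
      rw [this, mul_div_assoc', div_le_iff₀ hBK]
      have hd0 : (0 : ℝ) ≤ d := Nat.cast_nonneg _
      nlinarith
    calc (d : ℝ) * thr m B K (2 * K) ≤ m := h1
      _ ≤ y i := hyi
      _ = (y ∘ τ) (τ.symm i) := by simp

/-- The general upper bound. -/
theorem upper {d : ℕ} (hd : 1 ≤ d) {B K : ℕ} (hB : 2 ≤ B) (hK : 2 * d ≤ B ^ K)
    (P : Set (Fin d → ℝ)) (hcl : IsClosed P) (hne : P.Nonempty) (hpos : ∀ x ∈ P, 0 ≤ x)
    {α : ℝ} (hα : (B : ℝ) ^ 2 + 1 ≤ α) :
    ∃ X : Finset (Fin d → ℝ), IsPortfolio α P X ∧ X.card ≤ 2 ^ (3 * K + 1) := by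
  classical
  have hα0 : 0 < α := lt_of_lt_of_le (by positivity) hα
  -- it suffices to compare with every point of `P`
  have key : ∀ X : Finset (Fin d → ℝ), (∀ f : (Fin d → ℝ) → ℝ, IsSymMonoNorm f →
      ∃ x ∈ X, ∀ y ∈ P, f x ≤ α * f y) → ∀ f : (Fin d → ℝ) → ℝ, IsSymMonoNorm f →
      ∃ x ∈ X, f x ≤ α * sInf (f '' P) := by
    intro X hX f hf
    obtain ⟨x, hx, h⟩ := hX f hf
    refine ⟨x, hx, ?_⟩
    have h1 : f x / α ≤ sInf (f '' P) := by
      apply le_csInf (hne.image _)
      rintro _ ⟨y, hy, rfl⟩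
      rw [div_le_iff₀ hα0, mul_comm]
      exact h y hy
    rw [div_le_iff₀ hα0, mul_comm] at h1
    exact h1
  -- the smallest maximum
  let T : Set ℝ := {t | 0 ≤ t ∧ ∃ y ∈ P, ∀ i, y i ≤ t}
  have i0 : Fin d := ⟨0, by omega⟩
  have hneF : (Finset.univ : Finset (Fin d)).Nonempty := ⟨i0, Finset.mem_univ _⟩
  have hT : ∀ y ∈ P, (Finset.univ.sup' hneF y) ∈ T := by
    intro y hy
    refine ⟨?_, y, hy, fun i => Finset.le_sup' y (Finset.mem_univ i)⟩
    exact (hpos y hy i0).trans (Finset.le_sup' y (Finset.mem_univ i0))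
  have hTne : T.Nonempty := by
    obtain ⟨y, hy⟩ := hne
    exact ⟨_, hT y hy⟩
  have hTbdd : BddBelow T := ⟨0, fun t ht => ht.1⟩
  have hm0 : 0 ≤ sInf T := le_csInf hTne fun t ht => ht.1
  rcases hm0.eq_or_lt with hm | hm
  · -- zero belongs to `P`
    have h0 : (0 : Fin d → ℝ) ∈ P := by
      rw [← hcl.closure_eq, Metric.mem_closure_iff]
      intro ε hε
      obtain ⟨t, ⟨_, y, hy, hyt⟩, htlt⟩ := exists_lt_of_csInf_lt hTne (show sInf T < ε by linarith)
      refine ⟨y, hy, ?_⟩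
      rw [dist_pi_lt_iff hε]
      intro i
      rw [Pi.zero_apply, dist_comm, Real.dist_eq, sub_zero, abs_of_nonneg (hpos y hy i)]
      exact lt_of_le_of_lt (hyt i) htlt
    refine ⟨{0}, ⟨by simpa using h0, key _ fun f hf => ⟨0, by simp, fun y _ => ?_⟩⟩, ?_⟩
    · rw [hf.zero]
      exact mul_nonneg hα0.le (hf.nonneg y)
    · simp only [Finset.card_singleton]
      exact Nat.one_le_two_pow
  · set m := sInf T with hmdef
    -- a base point
    obtain ⟨t, ⟨_, x0, hx0, hx0t⟩, htlt⟩ :=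
      exists_lt_of_csInf_lt hTne (show sInf T < 2 * m by linarith)
    have hx0m : ∀ i, x0 i ≤ 2 * m := fun i => (hx0t i).trans htlt.le
    have hPm : ∀ y ∈ P, ∃ i, m ≤ y i := by
      intro y hy
      obtain ⟨i, _, hi⟩ := Finset.exists_mem_eq_sup' hneF y
      refine ⟨i, ?_⟩
      rw [← hi]
      exact csInf_le hTbdd (hT y hy)
    let P' : Set (Fin d → ℝ) := {y | y ∈ P ∧ ∀ i, y i ≤ 2 * d * m}
    have hd1 : (1 : ℝ) ≤ d := by exact_mod_cast hd
    have hx0' : x0 ∈ P' := by
      refine ⟨hx0, fun i => (hx0m i).trans ?_⟩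
      nlinarith
    let rep : Finset ℕ → (Fin d → ℝ) := fun s =>
      if h : ∃ x ∈ P', code m B K x = s then h.choose else x0
    have hrep : ∀ s, rep s ∈ P' := by
      intro s
      simp only [rep]
      split_ifs with h
      · exact h.choose_spec.1
      · exact hx0'
    have hrep2 : ∀ y ∈ P', code m B K (rep (code m B K y)) = code m B K y := by
      intro y hy
      have h : ∃ x ∈ P', code m B K x = code m B K y := ⟨y, hy, rfl⟩
      simp only [rep]
      rw [dif_pos h]
      exact h.choose_spec.2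
    let X : Finset (Fin d → ℝ) := (Finset.range (3 * K + 1)).powerset.image rep
    have hXne : X.Nonempty := by
      refine ⟨rep ∅, Finset.mem_image.2 ⟨∅, ?_, rfl⟩⟩
      simp
    refine ⟨X, ⟨?_, key X fun f hf => ?_⟩, ?_⟩
    · intro x hx
      obtain ⟨s, _, rfl⟩ := Finset.mem_image.1 hx
      exact (hrep s).1
    · obtain ⟨x, hxX, hxmin⟩ := Finset.exists_min_image X f hXne
      refine ⟨x, hxX, ?_⟩
      have hin : ∀ y ∈ P', f x ≤ α * f y := by
        intro y hy
        have h1 : rep (code m B K y) ∈ X :=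
          Finset.mem_image.2 ⟨_, Finset.mem_powerset.2 (code_mem m hB hd hK y), rfl⟩
        obtain ⟨i, hi⟩ := hPm y hy.1
        have h2 := dom_code hm hB hK (hpos _ (hrep (code m B K y)).1) (hpos y hy.1)
          (hrep (code m B K y)).2 i hi (hrep2 y hy) hf
        calc f x ≤ f (rep (code m B K y)) := hxmin _ h1
          _ ≤ ((B : ℝ) ^ 2 + 1) * f y := h2
          _ ≤ α * f y := mul_le_mul_of_nonneg_right hα (hf.nonneg y)
      intro y hy
      by_cases hy' : ∀ i, y i ≤ 2 * d * m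
      · exact hin y ⟨hy, hy'⟩
      · push Not at hy'
        obtain ⟨i, hi⟩ := hy'
        have h1 : f x0 ≤ f y := by
          calc f x0 ≤ d * (2 * m) * f (Pi.single i 1) := hf.le_of_bounded i (hpos _ hx0) hx0m
            _ = (2 * d * m) * f (Pi.single i 1) := by ring
            _ ≤ y i * f (Pi.single i 1) := mul_le_mul_of_nonneg_right hi.le (hf.nonneg _)
            _ ≤ f y := hf.single_le i i (hpos y hy)
        calc f x ≤ α * f x0 := hin x0 hx0'
          _ ≤ α * f y := mul_le_mul_of_nonneg_left h1 hα0.le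
    · calc X.card ≤ (Finset.range (3 * K + 1)).powerset.card := Finset.card_image_le
        _ = 2 ^ (3 * K + 1) := by rw [Finset.card_powerset, Finset.card_range]

/-! ## The lower bound -/

section Lower

/-- index set of the norm used in the lower bound -/
def idx (d Q : ℕ) (n : ℕ → ℕ) : Finset (ℕ × Finset (Fin d)) :=
  Finset.filter (fun p => p.2.card ≤ n p.1)
    (Finset.range Q ×ˢ (Finset.univ : Finset (Finset (Fin d))))

lemma mem_idx {d Q : ℕ} {n : ℕ → ℕ} {k : ℕ} {S : Finset (Fin d)} :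
    (k, S) ∈ idx d Q n ↔ k < Q ∧ S.card ≤ n k := by
  classical
  unfold idx
  simp

lemma idx_nonempty {d Q : ℕ} (n : ℕ → ℕ) (hQ : 0 < Q) : (idx d Q n).Nonempty :=
  ⟨(0, ∅), mem_idx.2 ⟨hQ, by simp⟩⟩

/-- maximum of weighted top-`n k` norms -/
noncomputable def topMax {d Q : ℕ} (n : ℕ → ℕ) (c : ℕ → ℝ) (hQ : 0 < Q) (x : Fin d → ℝ) : ℝ :=
  (idx d Q n).sup' (idx_nonempty n hQ) fun p => (∑ i ∈ p.2, |x i|) / c p.1

lemma le_topMax {d Q : ℕ} {n : ℕ → ℕ} (c : ℕ → ℝ) (hQ : 0 < Q) (x : Fin d → ℝ) {k : ℕ}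
    {S : Finset (Fin d)} (hk : k < Q) (hS : S.card ≤ n k) :
    (∑ i ∈ S, |x i|) / c k ≤ topMax n c hQ x :=
  Finset.le_sup' (fun p : ℕ × Finset (Fin d) => (∑ i ∈ p.2, |x i|) / c p.1)
    (mem_idx.2 ⟨hk, hS⟩)

lemma topMax_le {d Q : ℕ} {n : ℕ → ℕ} {c : ℕ → ℝ} {hQ : 0 < Q} {x : Fin d → ℝ} {a : ℝ}
    (h : ∀ k < Q, ∀ S : Finset (Fin d), S.card ≤ n k → (∑ i ∈ S, |x i|) / c k ≤ a) :
    topMax n c hQ x ≤ a := by
  unfold topMax
  refine Finset.sup'_le _ _ ?_
  rintro ⟨k, S⟩ hp
  obtain ⟨h1, h2⟩ := mem_idx.1 hp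
  exact h k h1 S h2

lemma topMax_norm {d Q : ℕ} {n : ℕ → ℕ} {c : ℕ → ℝ} (hQ : 0 < Q) (hn : 1 ≤ n 0)
    (hc : ∀ k, 0 < c k) : IsSymMonoNorm (topMax n c hQ : (Fin d → ℝ) → ℝ) := by
  classical
  have hsmul : ∀ (a : ℝ) (x : Fin d → ℝ), topMax n c hQ (a • x) ≤ |a| * topMax n c hQ x := by
    intro a x
    refine topMax_le fun k hk S hS => ?_
    have h1 := le_topMax c hQ x hk hS
    have h2 : (∑ i ∈ S, |(a • x) i|) / c k = |a| * ((∑ i ∈ S, |x i|) / c k) := by
      simp only [Pi.smul_apply, smul_eq_mul, abs_mul]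
      rw [← Finset.mul_sum, mul_div_assoc]
    rw [h2]
    exact mul_le_mul_of_nonneg_left h1 (abs_nonneg a)
  have hperm : ∀ (σ : Equiv.Perm (Fin d)) (x : Fin d → ℝ),
      topMax n c hQ (x ∘ σ) ≤ topMax n c hQ x := by
    intro σ x
    refine topMax_le fun k hk S hS => ?_
    have h1 := le_topMax (n := n) c hQ x (S := S.map σ.toEmbedding) hk (by simpa using hS)
    simpa using h1
  refine ⟨?_, ?_, ?_, ?_, ?_⟩
  · intro x hx
    funext i
    have h1 := le_topMax (n := n) c hQ x (S := {i}) hQ (by simpa using hn)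
    rw [hx, Finset.sum_singleton, div_le_iff₀ (hc 0), zero_mul] at h1
    exact abs_eq_zero.1 (le_antisymm h1 (abs_nonneg _))
  · intro a x
    refine le_antisymm (hsmul a x) ?_
    by_cases ha : a = 0
    · subst ha
      simp only [abs_zero, zero_mul]
      have := le_topMax (n := n) c hQ ((0 : ℝ) • x) (S := ∅) hQ (by simp)
      simpa using this
    · have h1 := hsmul a⁻¹ (a • x)
      rw [smul_smul, inv_mul_cancel₀ ha, one_smul, abs_inv] at h1
      have h2 : 0 < |a| := abs_pos.2 ha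
      calc |a| * topMax n c hQ x ≤ |a| * (|a|⁻¹ * topMax n c hQ (a • x)) :=
            mul_le_mul_of_nonneg_left h1 h2.le
        _ = topMax n c hQ (a • x) := by rw [← mul_assoc, mul_inv_cancel₀ h2.ne', one_mul]
  · intro x y
    refine topMax_le fun k hk S hS => ?_
    have h1 := le_topMax c hQ x hk hS
    have h2 := le_topMax c hQ y hk hS
    have h3 : (∑ i ∈ S, |(x + y) i|) / c k ≤ (∑ i ∈ S, |x i|) / c k + (∑ i ∈ S, |y i|) / c k := by
      rw [← add_div, ← Finset.sum_add_distrib]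
      exact div_le_div_of_nonneg_right (Finset.sum_le_sum fun i _ => abs_add_le _ _) (hc k).le
    linarith
  · intro σ x
    refine le_antisymm (hperm σ x) ?_
    have h1 := hperm σ⁻¹ (x ∘ σ)
    have h2 : (x ∘ σ) ∘ (σ⁻¹ : Equiv.Perm (Fin d)) = x := by
      funext i
      simp
    rwa [h2] at h1
  · intro x y hx hxy
    refine topMax_le fun k hk S hS => ?_
    have h1 := le_topMax c hQ y hk hS
    refine le_trans ?_ h1
    refine div_le_div_of_nonneg_right (Finset.sum_le_sum fun i _ => ?_) (hc k).le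
    exact abs_le_abs_of_nonneg (hx i) (hxy i)

/-- the `k`-th group of coordinates -/
def grp (d B k : ℕ) : Finset (Fin d) :=
  Finset.univ.filter fun j => B ^ (2 * k) ≤ (j : ℕ) ∧ (j : ℕ) < 2 * B ^ (2 * k)

lemma card_grp {d B k : ℕ} (h : 2 * B ^ (2 * k) ≤ d) : (grp d B k).card = B ^ (2 * k) := by
  have h1 : (grp d B k).card = (Finset.Ico (B ^ (2 * k)) (2 * B ^ (2 * k))).card := by
    refine Finset.card_bij (fun j _ => (j : ℕ)) ?_ ?_ ?_
    · intro j hj
      unfold grp at hj
      simpa using hj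
    · intro i _ j _ hij
      exact Fin.ext hij
    · intro j hj
      rw [Finset.mem_Ico] at hj
      refine ⟨⟨j, by omega⟩, ?_, rfl⟩
      unfold grp
      simpa using hj
  rw [h1, Nat.card_Ico]
  omega

lemma grp_disj {d B k l : ℕ} (hB : 2 ≤ B) (h : k ≠ l) : Disjoint (grp d B k) (grp d B l) := by
  rw [Finset.disjoint_left]
  intro j hj hj'
  unfold grp at hj hj'
  simp only [Finset.mem_filter, Finset.mem_univ, true_and] at hj hj'
  have key : ∀ a b : ℕ, a < b → 2 * B ^ (2 * a) ≤ B ^ (2 * b) := by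
    intro a b hab
    calc 2 * B ^ (2 * a) ≤ B * B ^ (2 * a) := Nat.mul_le_mul_right _ hB
      _ = B ^ (2 * a + 1) := by ring
      _ ≤ B ^ (2 * b) := Nat.pow_le_pow_right (by omega) (by omega)
  rcases Nat.lt_or_gt_of_ne h with h' | h'
  · have := key k l h'
    omega
  · have := key l k h'
    omega

/-- active groups for the pattern `T` -/
def act {q : ℕ} (T : Fin q → Bool) (k : ℕ) : Prop :=
  ∃ i : Fin q, (T i = true ∧ k = 2 * i) ∨ (T i = false ∧ k = 2 * i + 1)

/-- the test vector of the pattern `T` -/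
noncomputable def vec {q : ℕ} (d B : ℕ) (T : Fin q → Bool) (j : Fin d) : ℝ := by
  classical exact ∑ l ∈ (Finset.range (2 * q)).filter (act T),
    if j ∈ grp d B l then ((B : ℝ) ^ l)⁻¹ else 0

/-- the weights of the norm of the pattern `T` -/
noncomputable def wt {q : ℕ} (B : ℕ) (T : Fin q → Bool) (k : ℕ) : ℝ := by
  classical exact if act T k then 2 * (B : ℝ) ^ k else 4 * (B : ℝ) ^ k / B

lemma geom_lower {B : ℕ} (hB : 8 ≤ B) (k : ℕ) :
    ∑ l ∈ Finset.range k, (B : ℝ) ^ l ≤ 2 * (B : ℝ) ^ k / B := by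
  have hB' : (8 : ℝ) ≤ B := by exact_mod_cast hB
  induction k with
  | zero => simp; positivity
  | succ k ih =>
    rw [Finset.sum_range_succ]
    have h1 : 2 * (B : ℝ) ^ (k + 1) / B = 2 * (B : ℝ) ^ k := by
      rw [pow_succ]
      field_simp
    rw [h1]
    have h2 : 2 * (B : ℝ) ^ k / B ≤ (B : ℝ) ^ k := by
      rw [div_le_iff₀ (by positivity)]
      have : (0 : ℝ) < (B : ℝ) ^ k := by positivity
      nlinarith
    linarith

lemma geom_upper {B : ℕ} (hB : 8 ≤ B) (k m : ℕ) :
    ∑ l ∈ Finset.Ico (k + 1) (k + 1 + m), (B : ℝ) ^ (2 * k) * ((B : ℝ) ^ l)⁻¹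
      ≤ 2 * (B : ℝ) ^ k / B - 2 * (B : ℝ) ^ k / (B : ℝ) ^ (m + 1) := by
  have hB' : (8 : ℝ) ≤ B := by exact_mod_cast hB
  have hB0 : (B : ℝ) ≠ 0 := by positivity
  have hk : (0 : ℝ) < (B : ℝ) ^ k := by positivity
  induction m with
  | zero => simp
  | succ m ih =>
    rw [← add_assoc, Finset.sum_Ico_succ_top (by omega)]
    have h1 : (B : ℝ) ^ (2 * k) * ((B : ℝ) ^ (k + 1 + m))⁻¹ = (B : ℝ) ^ k / (B : ℝ) ^ (m + 1) := by
      rw [show 2 * k = k + k by ring, show k + 1 + m = k + (m + 1) by ring, pow_add, pow_add]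
      field_simp
    rw [h1]
    have h2 : 2 * (B : ℝ) ^ k / (B : ℝ) ^ (m + 1 + 1) ≤ (B : ℝ) ^ k / (B : ℝ) ^ (m + 1) := by
      rw [pow_succ (B : ℝ) (m + 1), div_le_div_iff₀ (by positivity) (by positivity)]
      have : (0 : ℝ) < (B : ℝ) ^ (m + 1) := by positivity
      have h3 : 0 < (B : ℝ) ^ k * (B : ℝ) ^ (m + 1) := by positivity
      nlinarith
    have h4 : 2 * (B : ℝ) ^ k / (B : ℝ) ^ (m + 1) = 2 * ((B : ℝ) ^ k / (B : ℝ) ^ (m + 1)) := by
      ring
    rw [h4] at ih
    linarith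

/-- the test vector is nonnegative -/
lemma vec_nonneg {q : ℕ} (d B : ℕ) (T : Fin q → Bool) : 0 ≤ vec d B T := by
  classical
  intro j
  unfold vec
  refine Finset.sum_nonneg fun l _ => ?_
  split_ifs
  · positivity
  · exact le_rfl

/-- sums of the test vector over a set -/
lemma sum_vec_le {q d B : ℕ} (T : Fin q → Bool) (hd : 2 * B ^ (4 * q) ≤ d) (S : Finset (Fin d)) :
    ∑ j ∈ S, |vec d B T j| ≤ ∑ l ∈ (Finset.range (2 * q)),
      (open Classical in if act T l then ((min S.card (B ^ (2 * l)) : ℕ) : ℝ) * ((B : ℝ) ^ l)⁻¹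
        else 0) := by
  classical
  have h1 : ∀ j ∈ S, |vec d B T j| = vec d B T j := fun j _ => abs_of_nonneg (vec_nonneg d B T j)
  rw [Finset.sum_congr rfl h1]
  unfold vec
  rw [Finset.sum_comm, ← Finset.sum_filter]
  refine Finset.sum_le_sum fun l hl => ?_
  rw [← Finset.sum_filter, Finset.sum_const, nsmul_eq_mul]
  refine mul_le_mul_of_nonneg_right ?_ (by positivity)
  have hl' : l < 2 * q := Finset.mem_range.1 (Finset.mem_filter.1 hl).1
  have h2 : (S.filter fun j => j ∈ grp d B l).card ≤ S.card := Finset.card_filter_le _ _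
  have h3 : (S.filter fun j => j ∈ grp d B l).card ≤ B ^ (2 * l) := by
    by_cases hB : B = 0
    · subst hB
      have h5 : (S.filter fun j => j ∈ grp d 0 l).card ≤ (grp d 0 l).card := by
        apply Finset.card_le_card
        intro j hj
        exact (Finset.mem_filter.1 hj).2
      refine h5.trans ?_
      have : (grp d 0 l).card ≤ (Finset.Ico (0 ^ (2 * l)) (2 * 0 ^ (2 * l))).card := by
        refine Finset.card_le_card_of_injOn (fun j => (j : ℕ)) ?_ ?_
        · intro j hj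
          unfold grp at hj
          simpa using hj
        · intro i _ j _ hij
          exact Fin.ext hij
      rw [Nat.card_Ico] at this
      omega
    · have h4 : 2 * B ^ (2 * l) ≤ d := by
        refine le_trans ?_ hd
        exact Nat.mul_le_mul_left _ (Nat.pow_le_pow_right (by omega) (by omega))
      rw [← card_grp h4]
      apply Finset.card_le_card
      intro j hj
      exact (Finset.mem_filter.1 hj).2
  exact_mod_cast le_min h2 h3

lemma sum_vec_bound {q d B : ℕ} (hB : 8 ≤ B) (T : Fin q → Bool) (hd : 2 * B ^ (4 * q) ≤ d)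
    {k : ℕ} (hk : k < 2 * q) {S : Finset (Fin d)} (hS : S.card ≤ B ^ (2 * k)) :
    ∑ j ∈ S, |vec d B T j| ≤ wt B T k := by
  classical
  have hB' : (8 : ℝ) ≤ B := by exact_mod_cast hB
  refine (sum_vec_le T hd S).trans ?_
  have hsplit : Finset.range (2 * q) = Finset.range k ∪ ({k} ∪ Finset.Ico (k + 1) (2 * q)) := by
    ext l
    simp only [Finset.mem_range, Finset.mem_union, Finset.mem_singleton, Finset.mem_Ico]
    omega
  rw [hsplit, Finset.sum_union, Finset.sum_union, Finset.sum_singleton]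
  · have h1 : ∑ l ∈ Finset.range k, (if act T l then
        ((min S.card (B ^ (2 * l)) : ℕ) : ℝ) * ((B : ℝ) ^ l)⁻¹ else 0) ≤ 2 * (B : ℝ) ^ k / B := by
      refine le_trans (Finset.sum_le_sum fun l _ => ?_) (geom_lower hB k)
      split_ifs
      · have : ((min S.card (B ^ (2 * l)) : ℕ) : ℝ) ≤ (B : ℝ) ^ (2 * l) := by
          exact_mod_cast min_le_right _ _
        calc ((min S.card (B ^ (2 * l)) : ℕ) : ℝ) * ((B : ℝ) ^ l)⁻¹
            ≤ (B : ℝ) ^ (2 * l) * ((B : ℝ) ^ l)⁻¹ := mul_le_mul_of_nonneg_right this (by positivity)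
          _ = (B : ℝ) ^ l := by
            rw [two_mul, pow_add]
            field_simp
      · positivity
    have h2 : ∑ l ∈ Finset.Ico (k + 1) (2 * q), (if act T l then
        ((min S.card (B ^ (2 * l)) : ℕ) : ℝ) * ((B : ℝ) ^ l)⁻¹ else 0) ≤ 2 * (B : ℝ) ^ k / B := by
      have h3 := geom_upper hB k (2 * q - (k + 1))
      rw [Nat.add_sub_cancel' (by omega)] at h3
      have h4 : 0 ≤ 2 * (B : ℝ) ^ k / (B : ℝ) ^ (2 * q - (k + 1) + 1) := by positivity
      refine le_trans (Finset.sum_le_sum fun l _ => ?_) (h3.trans (by linarith))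
      split_ifs
      · have : ((min S.card (B ^ (2 * l)) : ℕ) : ℝ) ≤ (B : ℝ) ^ (2 * k) := by
          exact_mod_cast (min_le_left _ _).trans hS
        exact mul_le_mul_of_nonneg_right this (by positivity)
      · positivity
    unfold wt
    split_ifs with hact
    · have h5 : ((min S.card (B ^ (2 * k)) : ℕ) : ℝ) * ((B : ℝ) ^ k)⁻¹ ≤ (B : ℝ) ^ k := by
        have : ((min S.card (B ^ (2 * k)) : ℕ) : ℝ) ≤ (B : ℝ) ^ (2 * k) := by
          exact_mod_cast min_le_right _ _
        calc ((min S.card (B ^ (2 * k)) : ℕ) : ℝ) * ((B : ℝ) ^ k)⁻¹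
            ≤ (B : ℝ) ^ (2 * k) * ((B : ℝ) ^ k)⁻¹ := mul_le_mul_of_nonneg_right this (by positivity)
          _ = (B : ℝ) ^ k := by
            rw [two_mul, pow_add]
            field_simp
      have h6 : 2 * (B : ℝ) ^ k / B ≤ (B : ℝ) ^ k / 4 := by
        rw [div_le_div_iff₀ (by positivity) (by norm_num)]
        have : (0 : ℝ) < (B : ℝ) ^ k := by positivity
        nlinarith
      have h7 : (0 : ℝ) < (B : ℝ) ^ k := by positivity
      linarith
    · have h6 : 4 * (B : ℝ) ^ k / B = 2 * (B : ℝ) ^ k / B + 2 * (B : ℝ) ^ k / B := by ring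
      rw [h6]
      linarith
  · rw [Finset.disjoint_left]
    intro l hl
    simp only [Finset.mem_singleton, Finset.mem_Ico] at *
    omega
  · rw [Finset.disjoint_left]
    intro l hl
    simp only [Finset.mem_singleton, Finset.mem_Ico, Finset.mem_union, Finset.mem_range] at *
    omega

lemma wt_pos {q B : ℕ} (hB : 8 ≤ B) (T : Fin q → Bool) (k : ℕ) : 0 < wt B T k := by
  have : (0 : ℝ) < B := by exact_mod_cast (by omega : 0 < B)
  unfold wt
  split_ifs <;> positivity

/-- the constraint matrix of the lower bound -/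
noncomputable def mat (d q B : ℕ) : Matrix (Fin q) (Fin d) ℝ := fun i j =>
  (if j ∈ grp d B (2 * i) then ((B : ℝ) ^ (2 * (i : ℕ)))⁻¹ else 0) +
  (if j ∈ grp d B (2 * i + 1) then ((B : ℝ) ^ (2 * (i : ℕ) + 1))⁻¹ else 0)

lemma mat_sum {d q B : ℕ} (i : Fin q) (x : Fin d → ℝ) :
    ∑ j, mat d q B i j * x j = (∑ j ∈ grp d B (2 * i), x j) / (B : ℝ) ^ (2 * (i : ℕ)) +
      (∑ j ∈ grp d B (2 * i + 1), x j) / (B : ℝ) ^ (2 * (i : ℕ) + 1) := by
  unfold mat
  simp only [add_mul, ite_mul, zero_mul, Finset.sum_add_distrib]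
  congr 1
  · rw [← Finset.sum_filter, Finset.sum_div]
    refine Finset.sum_congr ?_ fun j _ => by ring
    ext j; simp
  · rw [← Finset.sum_filter, Finset.sum_div]
    refine Finset.sum_congr ?_ fun j _ => by ring
    ext j; simp

/-- the test vector on an active group -/
lemma vec_on {q d B : ℕ} (T : Fin q → Bool) {k : ℕ} (hk : k < 2 * q) (h : act T k)
    {j : Fin d} (hj : j ∈ grp d B k) : ((B : ℝ) ^ k)⁻¹ ≤ vec d B T j := by
  classical
  unfold vec
  have h1 : k ∈ (Finset.range (2 * q)).filter (act T) :=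
    Finset.mem_filter.2 ⟨Finset.mem_range.2 hk, h⟩
  have h2 := Finset.single_le_sum (f := fun l => if j ∈ grp d B l then ((B : ℝ) ^ l)⁻¹ else 0)
    (fun l _ => by
      show (0 : ℝ) ≤ if j ∈ grp d B l then ((B : ℝ) ^ l)⁻¹ else 0
      split_ifs
      · positivity
      · exact le_rfl) h1
  simp only [hj, if_true] at h2
  exact h2

lemma sum_vec_on {q d B : ℕ} (hB : 8 ≤ B) (T : Fin q → Bool) (hd : 2 * B ^ (4 * q) ≤ d) {k : ℕ}
    (hk : k < 2 * q) (h : act T k) : 1 ≤ (∑ j ∈ grp d B k, vec d B T j) / (B : ℝ) ^ k := by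
  have hB0 : (0 : ℝ) < B := by exact_mod_cast (by omega : 0 < B)
  have h4 : 2 * B ^ (2 * k) ≤ d := by
    refine le_trans ?_ hd
    exact Nat.mul_le_mul_left _ (Nat.pow_le_pow_right (by omega) (by omega))
  rw [le_div_iff₀ (by positivity), one_mul]
  calc (B : ℝ) ^ k = ∑ _j ∈ grp d B k, ((B : ℝ) ^ k)⁻¹ := by
        rw [Finset.sum_const, card_grp h4, nsmul_eq_mul]
        push_cast
        rw [two_mul, pow_add]
        field_simp
    _ ≤ _ := Finset.sum_le_sum fun j hj => vec_on T hk h hj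

lemma vec_mem {q d B : ℕ} (hB : 8 ≤ B) (T : Fin q → Bool) (hd : 2 * B ^ (4 * q) ≤ d) :
    vec d B T ∈ coveringPolyhedron (mat d q B) (fun _ => 1) := by
  have hB0 : (0 : ℝ) < B := by exact_mod_cast (by omega : 0 < B)
  refine ⟨vec_nonneg d B T, fun i => ?_⟩
  rw [mat_sum]
  have h0 : ∀ k, 0 ≤ (∑ j ∈ grp d B k, vec d B T j) / (B : ℝ) ^ k := fun k =>
    div_nonneg (Finset.sum_nonneg fun j _ => vec_nonneg d B T j) (by positivity)
  cases hT : T i with
  | true =>
    have h1 := sum_vec_on hB T hd (k := 2 * i) (by omega) ⟨i, Or.inl ⟨hT, rfl⟩⟩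
    have h2 := h0 (2 * i + 1)
    linarith
  | false =>
    have h1 := sum_vec_on hB T hd (k := 2 * i + 1) (by omega) ⟨i, Or.inr ⟨hT, rfl⟩⟩
    have h2 := h0 (2 * i)
    linarith

lemma not_act_one {q : ℕ} {T : Fin q → Bool} {i : Fin q} (h : T i = true) :
    ¬ act T (2 * i + 1) := by
  rintro ⟨j, ⟨_, h2⟩ | ⟨h1, h2⟩⟩
  · omega
  · have : i = j := Fin.ext (by omega)
    rw [this, h1] at h
    exact Bool.false_ne_true h

lemma not_act_zero {q : ℕ} {T : Fin q → Bool} {i : Fin q} (h : T i = false) :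
    ¬ act T (2 * i) := by
  rintro ⟨j, ⟨h1, h2⟩ | ⟨_, h2⟩⟩
  · have : i = j := Fin.ext (by omega)
    rw [this, h1] at h
    exact Bool.false_ne_true h.symm
  · omega

/-- The lower bound. -/
theorem lower {q d B : ℕ} (hq : 0 < q) (hB : 8 ≤ B) (hd : 2 * B ^ (4 * q) ≤ d) {α : ℝ}
    (hα0 : 0 ≤ α) (hα : 8 * α < B) (X : Finset (Fin d → ℝ))
    (hX : IsPortfolio α (coveringPolyhedron (mat d q B) (fun _ => 1)) X) :
    2 ^ q ≤ X.card := by
  classical
  have hB0 : (0 : ℝ) < B := by exact_mod_cast (by omega : 0 < B)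
  have hQ : 0 < 2 * q := by omega
  obtain ⟨hXP, hX⟩ := hX
  have hnorm : ∀ T : Fin q → Bool, IsSymMonoNorm
      (topMax (fun k => B ^ (2 * k)) (wt B T) hQ : (Fin d → ℝ) → ℝ) := fun T =>
    topMax_norm hQ (by simp) (wt_pos hB T)
  choose g hgX hg using fun T : Fin q → Bool => hX _ (hnorm T)
  have hg1 : ∀ T, topMax (fun k => B ^ (2 * k)) (wt B T) hQ (g T) ≤ α := by
    intro T
    refine (hg T).trans ?_
    have h1 : sInf (topMax (fun k => B ^ (2 * k)) (wt B T) hQ ''
        coveringPolyhedron (mat d q B) (fun _ => 1)) ≤ 1 := by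
      have h2 : topMax (fun k => B ^ (2 * k)) (wt B T) hQ (vec d B T) ≤ 1 := by
        refine topMax_le fun k hk S hS => ?_
        rw [div_le_one (wt_pos hB T k)]
        exact sum_vec_bound hB T hd hk hS
      have hbdd : BddBelow (topMax (fun k => B ^ (2 * k)) (wt B T) hQ ''
          coveringPolyhedron (mat d q B) (fun _ => 1)) := by
        refine ⟨0, ?_⟩
        rintro _ ⟨x, _, rfl⟩
        exact (hnorm T).nonneg x
      exact (csInf_le hbdd (Set.mem_image_of_mem _ (vec_mem hB T hd))).trans h2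
    calc α * _ ≤ α * 1 := mul_le_mul_of_nonneg_left h1 hα0
      _ = α := mul_one α
  -- an inactive group carries little mass
  have hsmall : ∀ T : Fin q → Bool, ∀ k < 2 * q, ¬ act T k →
      (∑ j ∈ grp d B k, g T j) / (B : ℝ) ^ k < 1 / 2 := by
    intro T k hk hact
    have h4 : 2 * B ^ (2 * k) ≤ d := by
      refine le_trans ?_ hd
      exact Nat.mul_le_mul_left _ (Nat.pow_le_pow_right (by omega) (by omega))
    have h1 := le_topMax (n := fun k => B ^ (2 * k)) (wt B T) hQ (g T) (S := grp d B k) hk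
      (card_grp h4).le
    have h2 := h1.trans (hg1 T)
    have h3 : wt B T k = 4 * (B : ℝ) ^ k / B := by
      unfold wt
      rw [if_neg hact]
    rw [div_le_iff₀ (wt_pos hB T k), h3] at h2
    have h5 : ∑ j ∈ grp d B k, g T j ≤ ∑ j ∈ grp d B k, |g T j| :=
      Finset.sum_le_sum fun j _ => le_abs_self _
    rw [div_lt_iff₀ (by positivity)]
    have h6 : α * (4 * (B : ℝ) ^ k / B) < 1 / 2 * (B : ℝ) ^ k := by
      have h7 : α * (4 * (B : ℝ) ^ k / B) = (8 * α / B) * ((B : ℝ) ^ k / 2) := by ring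
      have h8 : 8 * α / B < 1 := by rw [div_lt_one hB0]; exact hα
      have h9 : (0 : ℝ) < (B : ℝ) ^ k / 2 := by positivity
      rw [h7]
      calc (8 * α / B) * ((B : ℝ) ^ k / 2) < 1 * ((B : ℝ) ^ k / 2) :=
            mul_lt_mul_of_pos_right h8 h9
        _ = 1 / 2 * (B : ℝ) ^ k := by ring
    linarith
  -- hence the pattern can be read off
  have hread : ∀ T : Fin q → Bool, ∀ i : Fin q,
      (T i = true ↔ 1 / 2 < (∑ j ∈ grp d B (2 * i), g T j) / (B : ℝ) ^ (2 * (i : ℕ))) := by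
    intro T i
    have hmem := (hXP _ (hgX T)).2 i
    rw [mat_sum] at hmem
    constructor
    · intro h
      have h1 := hsmall T (2 * i + 1) (by omega) (not_act_one h)
      linarith
    · intro h
      by_contra hcon
      have hf : T i = false := by simpa using hcon
      have h1 := hsmall T (2 * i) (by omega) (not_act_zero hf)
      linarith
  have hinj : Function.Injective g := by
    intro T T' h
    funext i
    have h1 := hread T i
    have h2 := hread T' i
    rw [h] at h1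
    have h3 : T i = true ↔ T' i = true := h1.trans h2.symm
    cases hT : T i <;> cases hT' : T' i <;> simp_all
  have hcard : (Finset.univ : Finset (Fin q → Bool)).card ≤ X.card :=
    Finset.card_le_card_of_injOn g (fun T _ => hgX T) (fun T _ T' _ h => hinj h)
  simpa using hcard

end Lower

/-! ## Asymptotics -/

open Filter Real in
lemma log_small (ε : ℝ) (hε : 0 < ε) : ∀ᶠ L : ℝ in atTop, log L ≤ ε * L := by
  have h := Real.isLittleO_log_id_atTop.def hε
  filter_upwards [h, eventually_ge_atTop (1 : ℝ)] with L hL h1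
  have h2 : 0 ≤ log L := log_nonneg h1
  simp only [id, norm_eq_abs, abs_of_nonneg h2, abs_of_nonneg (zero_le_one.trans h1)] at hL
  exact hL

open Filter Real in
/-- parameters for the upper bound -/
lemma upper_asymp (c : ℝ) (hc : 0 < c) : ∀ᶠ d : ℕ in atTop, ∃ B K : ℕ, 2 ≤ B ∧ 2 * d ≤ B ^ K ∧
    (B : ℝ) ^ 2 + 1 ≤ c * log d ∧ ((2 ^ (3 * K + 1) : ℕ) : ℝ) ≤ (d : ℝ) ^ (16 / log (log d)) := by
  have hlog : Tendsto (fun d : ℕ => log (d : ℝ)) atTop atTop :=
    tendsto_log_atTop.comp tendsto_natCast_atTop_atTop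
  have e1 : ∀ᶠ L : ℝ in atTop, 100 ≤ L := eventually_ge_atTop _
  have e2 : ∀ᶠ L : ℝ in atTop, 16 / c ≤ L := eventually_ge_atTop _
  have e3 : ∀ᶠ L : ℝ in atTop, (10 / 3) * (log 2 - (log c) / 2) ≤ log L :=
    tendsto_log_atTop.eventually (eventually_ge_atTop _)
  have e4 := log_small (1 / 100) (by norm_num)
  have e5 : ∀ᶠ L : ℝ in atTop, 1 ≤ log L := tendsto_log_atTop.eventually (eventually_ge_atTop _)
  filter_upwards [hlog.eventually e1, hlog.eventually e2, hlog.eventually e3, hlog.eventually e4,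
    hlog.eventually e5, eventually_ge_atTop 2] with d h1 h2 h3 h4 h5 hd
  set L := log (d : ℝ) with hL
  have hd0 : (0 : ℝ) < d := by exact_mod_cast (by omega : 0 < d)
  have hcL : 16 ≤ c * L := by
    rw [div_le_iff₀ hc] at h2
    linarith
  have hs0 : 0 ≤ √(c * L) := sqrt_nonneg _
  have hs2 : √(c * L) ^ 2 = c * L := sq_sqrt (by linarith)
  have hs4 : 4 ≤ √(c * L) := by
    rw [show (4 : ℝ) = √16 by rw [show (16 : ℝ) = 4 ^ 2 by norm_num]; rw [sqrt_sq (by norm_num)]]
    exact sqrt_le_sqrt hcL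
  set B := ⌈√(c * L) / 2⌉₊ with hB
  have hB1 : √(c * L) / 2 ≤ B := Nat.le_ceil _
  have hB2 : (B : ℝ) < √(c * L) / 2 + 1 := Nat.ceil_lt_add_one (by positivity)
  have hB3 : 2 ≤ B := by
    have : (2 : ℝ) ≤ B := by linarith
    exact_mod_cast this
  have hlogB : log L / 5 ≤ log B := by
    have h6 : log (√(c * L) / 2) ≤ log B := log_le_log (by positivity) hB1
    have h7 : log (√(c * L) / 2) = (log c + log L) / 2 - log 2 := by
      rw [log_div (by positivity) (by norm_num), log_sqrt (by positivity),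
        log_mul (by positivity) (by positivity)]
    rw [h7] at h6
    linarith
  refine ⟨B, Nat.clog B (2 * d), hB3, Nat.le_pow_clog (by omega) _, ?_, ?_⟩
  · have : (B : ℝ) ^ 2 ≤ (√(c * L) / 2 + 1) ^ 2 := pow_le_pow_left₀ (by positivity) hB2.le 2
    nlinarith
  · set K := Nat.clog B (2 * d) with hK
    have hK1 : B ^ K.pred < 2 * d := Nat.pow_pred_clog_lt_self (by omega) (by omega)
    have hKpos : 0 < K := Nat.clog_pos (by omega) (by omega)
    have hK2 : ((K : ℝ) - 1) * log B ≤ log 2 + L := by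
      have h6 : ((B : ℝ)) ^ K.pred ≤ 2 * d := by exact_mod_cast hK1.le
      have h7 := log_le_log (by positivity) h6
      rw [log_pow, log_mul (by norm_num) hd0.ne'] at h7
      have h8 : ((K.pred : ℕ) : ℝ) = (K : ℝ) - 1 := by
        rw [Nat.pred_eq_sub_one]
        push_cast [Nat.cast_sub hKpos]
        ring
      rw [h8] at h7
      exact h7
    have hlog2 : log 2 < 0.6931471808 := log_two_lt_d9
    have hlog2' : 0 < log 2 := log_pos (by norm_num)
    have hK3 : ((K : ℝ) - 1) * (log L / 5) ≤ log 2 + L := by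
      refine le_trans ?_ hK2
      refine mul_le_mul_of_nonneg_left hlogB ?_
      have : (1 : ℝ) ≤ K := by exact_mod_cast hKpos
      linarith
    have hgoal : (3 * (K : ℝ) + 1) * log 2 ≤ (16 / log L) * L := by
      rw [div_mul_eq_mul_div, le_div_iff₀ (by linarith)]
      have h9 : (K : ℝ) * log L ≤ 5 * (log 2 + L) + log L := by nlinarith
      have h10 : (3 * (K : ℝ) + 1) * log 2 * log L = log 2 * (3 * (K * log L) + log L) := by ring
      rw [h10]
      have h11 : log 2 * (3 * (K * log L) + log L) ≤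
          log 2 * (3 * (5 * (log 2 + L) + log L) + log L) :=
        mul_le_mul_of_nonneg_left (by linarith) hlog2'.le
      refine h11.trans ?_
      have h12 : 3 * (5 * (log 2 + L) + log L) + log L ≤ 16 * L := by linarith
      nlinarith
    push_cast
    rw [← rpow_natCast 2 (3 * K + 1), rpow_def_of_pos (by norm_num), rpow_def_of_pos hd0]
    apply exp_le_exp.2
    push_cast
    rw [← hL]
    linarith

open Filter Real in
/-- parameters for the lower bound -/
lemma lower_asymp (c : ℝ) (hc : 0 < c) : ∀ᶠ d : ℕ in atTop, ∃ B q : ℕ, 8 ≤ B ∧ 0 < q ∧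
    2 * B ^ (4 * q) ≤ d ∧ 8 * (c * log d) < B ∧ (q : ℝ) ≤ log d ∧
    (d : ℝ) ^ ((1 / 32) / log (log d)) ≤ ((2 ^ q : ℕ) : ℝ) := by
  have hlog : Tendsto (fun d : ℕ => log (d : ℝ)) atTop atTop :=
    tendsto_log_atTop.comp tendsto_natCast_atTop_atTop
  have e1 : ∀ᶠ L : ℝ in atTop, 100 ≤ L := eventually_ge_atTop _
  have e2 : ∀ᶠ L : ℝ in atTop, 8 * c + 9 ≤ L := eventually_ge_atTop _
  have e4 := log_small (1 / 100) (by norm_num)
  have e5 : ∀ᶠ L : ℝ in atTop, 1 ≤ log L := tendsto_log_atTop.eventually (eventually_ge_atTop _)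
  filter_upwards [hlog.eventually e1, hlog.eventually e2, hlog.eventually e4,
    hlog.eventually e5, eventually_ge_atTop 100] with d h1 h2 h4 h5 hd
  set L := log (d : ℝ) with hL
  have hd0 : (0 : ℝ) < d := by exact_mod_cast (by omega : 0 < d)
  set B := ⌈8 * (c * L)⌉₊ + 8 with hB
  have hcL : 0 < c * L := by positivity
  have hB1 : 8 * (c * L) < B := by
    have := Nat.le_ceil (8 * (c * L))
    rw [hB]
    push_cast
    linarith
  have hB2 : (B : ℝ) ≤ L ^ 2 := by
    have := Nat.ceil_lt_add_one (a := 8 * (c * L)) (by positivity)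
    rw [hB]
    push_cast
    nlinarith
  have hB8 : 8 ≤ B := by omega
  have hB0 : (0 : ℝ) < B := by exact_mod_cast (by omega : 0 < B)
  have hlogB : log B ≤ 2 * log L := by
    have := log_le_log hB0 hB2
    rwa [log_pow, Nat.cast_ofNat] at this
  have hlogB0 : 0 < log B := log_pos (by exact_mod_cast (by omega : 1 < B))
  set N := Nat.log B (d / 2) with hN
  have hN1 : B ^ N ≤ d / 2 := Nat.pow_log_le_self B (by omega)
  have hN2 : d / 2 < B ^ (N + 1) := Nat.lt_pow_succ_log_self (by omega) _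
  have hN3 : L - 2 ≤ ((N : ℝ) + 1) * (2 * log L) := by
    have h6 : (d : ℝ) / 3 ≤ (B : ℝ) ^ (N + 1) := by
      have h7 : d / 3 ≤ d / 2 := by omega
      have h8 : d ≤ 3 * B ^ (N + 1) := by omega
      have h9 : (d : ℝ) ≤ 3 * (B : ℝ) ^ (N + 1) := by exact_mod_cast h8
      linarith
    have h7 := log_le_log (by positivity) h6
    rw [log_pow, log_div hd0.ne' (by norm_num)] at h7
    push_cast at h7
    have h8 : log 3 ≤ 2 := by
      have := Real.log_le_sub_one_of_pos (show (0 : ℝ) < 3 by norm_num)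
      linarith
    have h9 : ((N : ℝ) + 1) * log B ≤ ((N : ℝ) + 1) * (2 * log L) :=
      mul_le_mul_of_nonneg_left hlogB (by positivity)
    rw [← hL] at h7
    linarith
  set q := N / 4 with hq
  have hq1 : 4 * q ≤ N := by omega
  have hq2 : (N : ℝ) ≤ 4 * q + 3 := by exact_mod_cast (by omega : N ≤ 4 * q + 3)
  have hpow : 2 * B ^ (4 * q) ≤ d := by
    have := Nat.pow_le_pow_right (n := B) (by omega) hq1
    omega
  have hlog2 : 0.6931471803 < log 2 := log_two_gt_d9
  have hmain : (1 / 32) / log L * L ≤ q * log 2 := by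
    rw [div_mul_eq_mul_div, div_le_iff₀ (by linarith)]
    have h6 : L - 2 ≤ (4 * (q : ℝ) + 4) * (2 * log L) := by
      refine hN3.trans ?_
      exact mul_le_mul_of_nonneg_right (by linarith) (by linarith)
    have h7 : (q : ℝ) * log 2 * log L ≥ (q : ℝ) * log L * 0.69 := by
      have : 0 ≤ (q : ℝ) * log L := by positivity
      nlinarith
    nlinarith
  have hq0 : 0 < q := by
    have h6 : 0 < (1 / 32) / log L * L := by positivity
    have h7 : (0 : ℝ) < q * log 2 := lt_of_lt_of_le h6 hmain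
    have h8 : (0 : ℝ) < q := by
      by_contra hcon
      have : (q : ℝ) ≤ 0 := not_lt.1 hcon
      nlinarith
    exact_mod_cast h8
  refine ⟨B, q, hB8, hq0, hpow, hB1, ?_, ?_⟩
  · have h6 : (B : ℝ) ^ (4 * q) ≤ d := by
      have : B ^ (4 * q) ≤ d := by omega
      exact_mod_cast this
    have h7 := log_le_log (by positivity) h6
    rw [log_pow] at h7
    push_cast at h7
    have h8 : 1 ≤ log B := by
      have h9 : log 8 ≤ log B := log_le_log (by norm_num) (by exact_mod_cast hB8)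
      have h10 : log 8 = 3 * log 2 := by
        rw [show (8 : ℝ) = 2 ^ 3 by norm_num, log_pow]
        norm_num
      linarith
    have h9 : (0 : ℝ) ≤ q := Nat.cast_nonneg _
    rw [← hL] at h7
    nlinarith
  · push_cast
    rw [← rpow_natCast 2 q, rpow_def_of_pos hd0, rpow_def_of_pos (by norm_num)]
    apply exp_le_exp.2
    rw [← hL]
    linarith

open Filter Real in
/-- The question Q1 as posed. -/
def Q1 : Prop := ∀ c : ℝ, 1 ≤ c → ∃ C δ : ℝ, 0 < C ∧ 0 < δ ∧ ∀ᶠ d : ℕ in atTop,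
  ∃ (r : ℕ) (A : Matrix (Fin r) (Fin d) ℝ) (b : Fin r → ℝ), (r : ℝ) ≤ C * log d ∧
    (∀ i j, 0 ≤ A i j) ∧ (∀ i, 0 ≤ b i) ∧ (coveringPolyhedron A b).Nonempty ∧
    ∀ X : Finset (Fin d → ℝ), IsPortfolio (c * log d) (coveringPolyhedron A b) X →
      (d : ℝ) ^ δ ≤ (X.card : ℝ)

lemma isClosed_coveringPolyhedron {d r : ℕ} (A : Matrix (Fin r) (Fin d) ℝ) (b : Fin r → ℝ) :
    IsClosed (coveringPolyhedron A b) := by
  unfold coveringPolyhedron
  rw [Set.ofPred_and]
  refine IsClosed.inter (isClosed_le continuous_const continuous_id) ?_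
  rw [Set.ofPred_forall]
  refine isClosed_iInter fun i => isClosed_le continuous_const ?_
  fun_prop

open Filter Real in
/-- Q1 is false, and the true order of the portfolio size is `d ^ Θ(1 / log log d)`. -/
theorem result : ¬ Q1 ∧ ∀ c : ℝ, 0 < c → ∀ᶠ d : ℕ in atTop,
    (∀ P : Set (Fin d → ℝ), IsClosed P → P.Nonempty → (∀ x ∈ P, 0 ≤ x) →
      ∃ X : Finset (Fin d → ℝ), IsPortfolio (c * log d) P X ∧
        (X.card : ℝ) ≤ (d : ℝ) ^ (16 / log (log d))) ∧
    (∃ (r : ℕ) (A : Matrix (Fin r) (Fin d) ℝ) (b : Fin r → ℝ), (r : ℝ) ≤ log d ∧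
      (∀ i j, 0 ≤ A i j) ∧ (∀ i, 0 ≤ b i) ∧ (coveringPolyhedron A b).Nonempty ∧
      ∀ X : Finset (Fin d → ℝ), IsPortfolio (c * log d) (coveringPolyhedron A b) X →
        (d : ℝ) ^ ((1 / 32) / log (log d)) ≤ (X.card : ℝ)) := by
  have hmain : ∀ c : ℝ, 0 < c → ∀ᶠ d : ℕ in atTop,
    (∀ P : Set (Fin d → ℝ), IsClosed P → P.Nonempty → (∀ x ∈ P, 0 ≤ x) →
      ∃ X : Finset (Fin d → ℝ), IsPortfolio (c * log d) P X ∧
        (X.card : ℝ) ≤ (d : ℝ) ^ (16 / log (log d))) ∧
    (∃ (r : ℕ) (A : Matrix (Fin r) (Fin d) ℝ) (b : Fin r → ℝ), (r : ℝ) ≤ log d ∧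
      (∀ i j, 0 ≤ A i j) ∧ (∀ i, 0 ≤ b i) ∧ (coveringPolyhedron A b).Nonempty ∧
      ∀ X : Finset (Fin d → ℝ), IsPortfolio (c * log d) (coveringPolyhedron A b) X →
        (d : ℝ) ^ ((1 / 32) / log (log d)) ≤ (X.card : ℝ)) := by
    intro c hc
    filter_upwards [upper_asymp c hc, lower_asymp c hc, eventually_ge_atTop 2] with d hup hlow hd
    constructor
    · intro P hcl hne hpos
      obtain ⟨B, K, hB, hK, hα, hcard⟩ := hup
      obtain ⟨X, hX, hXc⟩ := upper (by omega) hB hK P hcl hne hpos hα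
      refine ⟨X, hX, le_trans ?_ hcard⟩
      exact_mod_cast hXc
    · obtain ⟨B, q, hB, hq, hpow, hα, hr, hcard⟩ := hlow
      have hlog : 0 ≤ log (d : ℝ) := log_natCast_nonneg d
      refine ⟨q, mat d q B, fun _ => 1, hr, ?_, fun _ => zero_le_one,
        ⟨_, vec_mem hB (fun _ => true) hpow⟩, ?_⟩
      · intro i j
        unfold mat
        refine add_nonneg ?_ ?_ <;> split_ifs <;> positivity
      · intro X hX
        have h1 := lower hq hB hpow (mul_nonneg hc.le hlog) hα X hX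
        exact hcard.trans (by exact_mod_cast h1)
  refine ⟨?_, hmain⟩
  intro hQ
  obtain ⟨C, δ, hC, hδ, hev⟩ := hQ 1 le_rfl
  have hloglog : Tendsto (fun d : ℕ => log (log (d : ℝ))) atTop atTop :=
    tendsto_log_atTop.comp (tendsto_log_atTop.comp tendsto_natCast_atTop_atTop)
  obtain ⟨d, hd1, hd2, hd3, hd4⟩ := (hev.and ((hmain 1 one_pos).and
    ((hloglog.eventually (eventually_gt_atTop (16 / δ))).and
      (eventually_ge_atTop 2)))).exists
  obtain ⟨r, A, b, _, _, _, hne, hlow⟩ := hd1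
  obtain ⟨X, hX, hXc⟩ := hd2.1 (coveringPolyhedron A b) (isClosed_coveringPolyhedron A b) hne
    (fun x hx => hx.1)
  have h1 := (hlow X hX).trans hXc
  have hd1' : (1 : ℝ) < d := by exact_mod_cast (by omega : 1 < d)
  have h2 := (Real.rpow_le_rpow_left_iff hd1').1 h1
  have h3 : 0 < log (log (d : ℝ)) := lt_trans (by positivity) hd3
  rw [le_div_iff₀ h3] at h2
  rw [div_lt_iff₀ hδ] at hd3
  linarith

end Pool.Agent.Results.MP_a76361_lc.PortfolioSize
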